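import Pool.Agent.Y560.WB.Main

/-!
Structurability by contractible simplicial complexes passes along Borel homomorphisms between
countable Borel equivalence relations which are countable-to-one or smooth-to-one.
-/

set_option autoImplicit false

namespace Pool.Agent.Y560.WB

open Set MeasureTheory Pool.Agent.Helper281.Sc

universe u

variable {X Y : Type u} [MeasurableSpace X] [StandardBorelSpace X] [MeasurableSpace Y]
  [StandardBorelSpace Y] {E : X → X → Prop} {F : Y → Y → Prop} {f : X → Y}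

/-- `T` is a Borel set that contains exactly one point of every class of `E ∩ ker f`. -/
structure Trv (E : X → X → Prop) (f : X → Y) (T : Set X) : Prop where
  meas : MeasurableSet T
  ex : ∀ x, ∃ x' ∈ T, E x x' ∧ f x = f x'
  uni : ∀ x ∈ T, ∀ x' ∈ T, E x x' → f x = f x' → x = x'

theorem trv_of_countable (hE : IsCBER E) (hf : Measurable f)
    (hc : ∀ y, {x | f x = y}.Countable) : ∃ T, Trv E f T := by
  classical
  obtain ⟨γ, hγm, hγ⟩ := Pool.Agent.Helper281.LN.cber_enum E hE.equiv hE.borel hE.countable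
  have hR : MeasurableSet {p : Y × X | f p.2 = p.1} :=
    measurableSet_eq_fun (hf.comp measurable_snd) measurable_fst
  obtain ⟨G, hG1, hG2, hG3⟩ : ∃ G : ℕ → Set (Y × X), (∀ n, MeasurableSet (G n)) ∧
      (⋃ n, G n) = {p : Y × X | f p.2 = p.1} ∧
      ∀ n x y y', (x, y) ∈ G n → (x, y') ∈ G n → y = y' := by
    let := upgradeStandardBorel X
    let := upgradeStandardBorel Y
    exact Pool.Agent.Helper281.LN.lusin_novikov hR hc
  have m1 : ∀ n, Measurable fun x => (f x, x) ∈ G n := fun n =>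
    measurableSet_setOfPred.1 ((hf.prodMk measurable_id) (hG1 n))
  have m2 : ∀ m, Measurable fun x => f (γ m x) = f x := fun m =>
    measurableSet_setOfPred.1 (measurableSet_eq_fun (hf.comp (hγm m)) hf)
  have m3 : ∀ k m, Measurable fun x => (f x, γ m x) ∈ G k := fun k m =>
    measurableSet_setOfPred.1 ((hf.prodMk (hγm m)) (hG1 k))
  refine ⟨{x | ∃ n, (f x, x) ∈ G n ∧ ∀ k, k < n → ∀ m, f (γ m x) = f x → (f x, γ m x) ∉ G k},
    ?_, fun x => ?_, ?_⟩
  · exact measurableSet_setOfPred.2 (Measurable.exists fun n => (m1 n).and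
      (Measurable.forall fun k => Measurable.imp measurable_const
        (Measurable.forall fun m => (m2 m).imp (m3 k m).not)))
  · have h1 : ∃ n, ∃ x', E x x' ∧ f x = f x' ∧ (f x, x') ∈ G n := by
      have : (f x, x) ∈ ⋃ n, G n := by
        rw [hG2]
        rfl
      obtain ⟨n, hn⟩ := mem_iUnion.1 this
      exact ⟨n, x, hE.equiv.refl x, rfl, hn⟩
    obtain ⟨x', h2, h3, h4⟩ := Nat.find_spec h1
    refine ⟨x', ⟨Nat.find h1, h3 ▸ h4, fun k hk m h5 h6 => Nat.find_min h1 hk
      ⟨γ m x', hE.equiv.trans h2 ((hγ _ _).2 ⟨m, rfl⟩), h3.trans h5.symm, ?_⟩⟩, h2, h3⟩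
    rw [h3]
    exact h6
  · rintro x ⟨n, h1, h2⟩ x' ⟨n', h1', h2'⟩ hx hfx
    obtain ⟨m, hm⟩ := (hγ x x').1 hx
    obtain ⟨m', hm'⟩ := (hγ x' x).1 (hE.equiv.symm hx)
    rcases lt_trichotomy n n' with h | h | h
    · refine absurd ?_ (h2' n h m' (by rw [hm', hfx]))
      rw [hm', ← hfx]
      exact h1
    · subst h
      rw [← hfx] at h1'
      exact hG3 n _ _ _ h1 h1'
    · refine absurd ?_ (h2 n' h m (by rw [hm, hfx]))
      rw [hm, hfx]
      exact h1'

theorem trv_univ (hE : IsCBER E) (h : ∀ x x', E x x' → f x = f x' → x = x') :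
    Trv E f univ :=
  ⟨MeasurableSet.univ, fun x => ⟨x, mem_univ x, hE.equiv.refl x, rfl⟩, fun x _ x' _ => h x x'⟩

theorem ex_S (hE : IsCBER E) (hF : IsCBER F) (hf : Measurable f) {T : Set X} (hT : Trv E f T) :
    ∃ S : Set (X × Y), MeasurableSet S ∧ (∀ x y, (x, y) ∈ S → F (f x) y) ∧
      (∀ x y, F (f x) y → ∃ x', E x x' ∧ (x', y) ∈ S) ∧
      ∀ x x' y, (x, y) ∈ S → (x', y) ∈ S → E x x' → x = x' := by
  classical
  obtain ⟨γ, hγm, hγ⟩ := Pool.Agent.Helper281.LN.cber_enum E hE.equiv hE.borel hE.countable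
  obtain ⟨δ, hδm, hδ⟩ := Pool.Agent.Helper281.LN.cber_enum F hF.equiv hF.borel hF.countable
  have m1 : ∀ i, Measurable fun p : X × Y => f p.1 = δ i p.2 := fun i =>
    measurableSet_setOfPred.1 (measurableSet_eq_fun (hf.comp measurable_fst)
      ((hδm i).comp measurable_snd))
  have m2 : ∀ j m, Measurable fun p : X × Y => f (γ m p.1) = δ j p.2 := fun j m =>
    measurableSet_setOfPred.1 (measurableSet_eq_fun (hf.comp ((hγm m).comp measurable_fst))
      ((hδm j).comp measurable_snd))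
  have m3 : Measurable fun p : X × Y => p.1 ∈ T :=
    measurableSet_setOfPred.1 (measurable_fst hT.meas)
  refine ⟨{p | p.1 ∈ T ∧ ∃ i, f p.1 = δ i p.2 ∧ ∀ j, j < i → ∀ m, f (γ m p.1) ≠ δ j p.2},
    ?_, ?_, ?_, ?_⟩
  · exact measurableSet_setOfPred.2 (m3.and (Measurable.exists fun i => (m1 i).and
      (Measurable.forall fun j => Measurable.imp measurable_const
        (Measurable.forall fun m => (m2 j m).not))))
  · rintro x y ⟨-, i, h1, -⟩
    exact hF.equiv.symm ((hδ y (f x)).2 ⟨i, h1.symm⟩)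
  · intro x y hxy
    have h1 : ∃ i, ∃ m, f (γ m x) = δ i y := by
      obtain ⟨i, hi⟩ := (hδ y (f x)).1 (hF.equiv.symm hxy)
      obtain ⟨m, hm⟩ := (hγ x x).1 (hE.equiv.refl x)
      exact ⟨i, m, by rw [hm, hi]⟩
    obtain ⟨m, hm⟩ := Nat.find_spec h1
    obtain ⟨x', hx'T, hx', hfx'⟩ := hT.ex (γ m x)
    have hxx' : E x x' := hE.equiv.trans ((hγ _ _).2 ⟨m, rfl⟩) hx'
    refine ⟨x', hxx', hx'T, Nat.find h1, ?_, fun j hj m' h2 => Nat.find_min h1 hj ?_⟩
    · show f x' = _
      rw [← hfx', hm]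
    · obtain ⟨m'', hm''⟩ := (hγ x (γ m' x')).1
        (hE.equiv.trans hxx' ((hγ _ _).2 ⟨m', rfl⟩))
      exact ⟨m'', by rw [hm'']; exact h2⟩
  · rintro x x' y ⟨h1, i, h2, h3⟩ ⟨h1', i', h2', h3'⟩ hx
    obtain ⟨m, hm⟩ := (hγ x x').1 hx
    obtain ⟨m', hm'⟩ := (hγ x' x).1 (hE.equiv.symm hx)
    have hi : i = i' := by
      rcases lt_trichotomy i i' with h | h | h
      · exact absurd (by rw [hm']; exact h2) (h3' i h m')
      · exact h
      · exact absurd (by rw [hm]; exact h2') (h3 i' h m)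
    subst hi
    exact hT.uni x h1 x' h1' hx (h2.trans h2'.symm)

/-- The covering space. -/
def WS (f : X → Y) (S : Set (X × Y)) : Set (X × Y × Bool) :=
  {w | (w.2.2 = false ∧ w.2.1 = f w.1) ∨ (w.2.2 = true ∧ (w.1, w.2.1) ∈ S)}

theorem meas_WS (hf : Measurable f) {S : Set (X × Y)} (hS : MeasurableSet S) :
    MeasurableSet (WS f S) := by
  have m1 : ∀ b : Bool, Measurable fun w : X × Y × Bool => w.2.2 = b := fun b =>
    measurableSet_setOfPred.1 ((measurable_snd.comp measurable_snd) (measurableSet_singleton b))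
  have m2 : Measurable fun w : X × Y × Bool => w.2.1 = f w.1 :=
    measurableSet_setOfPred.1 (measurableSet_eq_fun (measurable_fst.comp measurable_snd)
      (hf.comp measurable_fst))
  have m3 : Measurable fun w : X × Y × Bool => (w.1, w.2.1) ∈ S :=
    measurableSet_setOfPred.1 ((measurable_fst.prodMk (measurable_fst.comp measurable_snd)) hS)
  exact measurableSet_setOfPred.2 (((m1 false).and m2).or ((m1 true).and m3))

/-- The theorem. -/
theorem weak_main (hE : IsCBER E) (hF : IsCBER F) (hf : Measurable f)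
    (hom : ∀ x x', E x x' → F (f x) (f x')) {T : Set X} (hT : Trv E f T) (n : ℕ) (hn : 2 ≤ n)
    (K : Set (Finset Y)) (hK : Stru n F K) :
    ∃ L : Set (Finset X), Stru n E L ∧
      ∀ x, (∃ s ∈ K, s.card = n + 1 ∧ ∀ y ∈ s, F (f x) y) →
        (∃ t : Finset X, t.card = n + 1 ∧ ∀ y ∈ t, E x y) →
        ∃ s ∈ L, s.card = n + 1 ∧ ∀ y ∈ s, E x y := by
  obtain ⟨S, hS1, hS2, hS3, hS4⟩ := ex_S hE hF hf hT
  have : StandardBorelSpace (WS f S) := (meas_WS hf hS1).standardBorel
  have hval : Measurable (Subtype.val : WS f S → X × Y × Bool) := measurable_subtype_coe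
  have d : Dat E F f (fun w : WS f S => w.1.1) (fun w => w.1.2.1) (fun w => w.1.2.2)
      (fun x => ⟨(x, f x, false), Or.inl ⟨rfl, rfl⟩⟩) := by
    refine ⟨hE, hF, hom, measurable_fst.comp hval,
      measurable_fst.comp (measurable_snd.comp hval),
      measurable_snd.comp (measurable_snd.comp hval),
      Measurable.subtype_mk (measurable_id.prodMk (hf.prodMk measurable_const)),
      ?_, ?_, ?_, ?_, fun _ => rfl⟩
    · rintro ⟨⟨x, y, b⟩, hw⟩ ⟨⟨x', y', b'⟩, hw'⟩ h1 h2 h3
      exact Subtype.ext (Prod.ext h1 (Prod.ext h2 h3))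
    · rintro ⟨⟨x, y, b⟩, ⟨-, h⟩ | ⟨-, h⟩⟩
      · have h' : y = f x := h
        show F (f x) y
        rw [h']
        exact hF.equiv.refl _
      · exact hS2 x y h
    · rintro ⟨⟨x, y, b⟩, hw⟩ ⟨⟨x', y', b'⟩, hw'⟩ h1 h2 h3 h4
      have h1' : b = true := h1
      have h2' : b' = true := h2
      have h4' : y = y' := h4
      have h5 : (x, y) ∈ S := by
        rcases hw with ⟨h, -⟩ | ⟨-, h⟩
        · exact absurd (h1'.symm.trans h) (by simp)
        · exact h
      have h6 : (x', y') ∈ S := by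
        rcases hw' with ⟨h, -⟩ | ⟨-, h⟩
        · exact absurd (h2'.symm.trans h) (by simp)
        · exact h
      have h7 : x = x' := hS4 x x' y h5 (by rw [h4']; exact h6) h3
      exact Subtype.ext (Prod.ext h7 (Prod.ext h4' (h1'.trans h2'.symm)))
    · intro x y hxy
      obtain ⟨x', h1, h2⟩ := hS3 x y hxy
      exact ⟨⟨(x', y, true), Or.inr ⟨rfl, h2⟩⟩, h1, rfl, rfl⟩
  exact d.main hn hK

end Pool.Agent.Y560.WB
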