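import Pool.Agent.Helper281.Sc.Gen

/-!
Structurability by contractible simplicial complexes passes along Borel homomorphisms between
countable Borel equivalence relations which are smooth-to-one.
-/

set_option autoImplicit false

namespace Pool.Agent.Y560.WB

open Set MeasureTheory Pool.Agent.Helper281.Sc

universe u

section abs

variable {X Y W : Type u} [MeasurableSpace X] [StandardBorelSpace X] [MeasurableSpace Y]
  [StandardBorelSpace Y] [MeasurableSpace W] [StandardBorelSpace W]

/-- The data of the covering space. -/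
structure Dat (E : X → X → Prop) (F : Y → Y → Prop) (f : X → Y) (px : W → X) (py : W → Y)
    (pb : W → Bool) (ι : X → W) : Prop where
  hE : IsCBER E
  hF : IsCBER F
  hom : ∀ x x', E x x' → F (f x) (f x')
  mx : Measurable px
  my : Measurable py
  mb : Measurable pb
  mi : Measurable ι
  ext : ∀ w w', px w = px w' → py w = py w' → pb w = pb w' → w = w'
  fy : ∀ w, F (f (px w)) (py w)
  uni : ∀ w w', pb w = true → pb w' = true → E (px w) (px w') → py w = py w' → w = w'
  ex : ∀ x y, F (f x) y → ∃ w, E x (px w) ∧ py w = y ∧ pb w = true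
  pi : ∀ x, px (ι x) = x

variable {E : X → X → Prop} {F : Y → Y → Prop} {f : X → Y} {px : W → X} {py : W → Y}
  {pb : W → Bool} {ι : X → W} {K : Set (Finset Y)} {n : ℕ}

open Classical in
/-- The complex. -/
def KW (E : X → X → Prop) (px : W → X) (py : W → Y) (pb : W → Bool) (K : Set (Finset Y)) :
    Set (Finset W) :=
  {s | s.Nonempty ∧ (∀ w ∈ s, ∀ w' ∈ s, E (px w) (px w')) ∧
    (((∀ w ∈ s, pb w = true) ∧ s.image py ∈ K) ∨
      ∃ w ∈ s, pb w = false ∧ ∀ w' ∈ s, w' ≠ w → pb w' = true ∧ py w' = py w)}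

theorem Dat.cber (d : Dat E F f px py pb ι) : IsCBER fun w w' => E (px w) (px w') := by
  refine ⟨⟨fun w => d.hE.equiv.refl _, fun h => d.hE.equiv.symm h,
    fun h h' => d.hE.equiv.trans h h'⟩, ?_, fun w => ?_⟩
  · have : Measurable fun p : W × W => (px p.1, px p.2) :=
      (d.mx.comp measurable_fst).prodMk (d.mx.comp measurable_snd)
    exact this d.hE.borel
  · have hinj : Function.Injective fun w : W => (px w, py w, pb w) := by
      intro w w' h
      simp only [Prod.mk.injEq] at h
      exact d.ext w w' h.1 h.2.1 h.2.2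
    refine (((d.hE.countable (px w)).prod ((d.hF.countable (f (px w))).prod
      (countable_univ (α := Bool)))).preimage hinj).mono ?_
    intro w' hw'
    exact ⟨hw', d.hF.equiv.trans (d.hom _ _ hw') (d.fy w'), mem_univ _⟩

open Classical in
theorem Dat.img (d : Dat E F f px py pb ι) (hK : Stru n F K) {s : Finset W}
    (hs : s ∈ KW E px py pb K) : s.image py ∈ K := by
  obtain ⟨hne, hE, ⟨h1, h2⟩ | ⟨w, hw, h1, h2⟩⟩ := hs
  · exact h2
  · have : s.image py = {py w} := by
      ext y
      rw [Finset.mem_image, Finset.mem_singleton]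
      constructor
      · rintro ⟨w', hw', rfl⟩
        by_cases h : w' = w
        · rw [h]
        · exact (h2 w' hw' h).2
      · rintro rfl
        exact ⟨w, hw, rfl⟩
    rw [this]
    exact hK.sing _

theorem Dat.cx (d : Dat E F f px py pb ι) (hK : Stru n F K) : IsCx (KW E px py pb K) := by
  classical
  refine ⟨fun h => Finset.not_nonempty_empty h.1, ?_⟩
  rintro s ⟨hne, hE, h⟩ t hts htn
  refine ⟨htn, fun w hw w' hw' => hE w (hts hw) w' (hts hw'), ?_⟩
  rcases h with ⟨h1, h2⟩ | ⟨w, hw, h1, h2⟩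
  · refine Or.inl ⟨fun w hw => h1 w (hts hw), ?_⟩
    exact hK.cx.2 _ h2 _ (Finset.image_subset_image hts) (htn.image _)
  · by_cases hwt : w ∈ t
    · exact Or.inr ⟨w, hwt, h1, fun w' hw' hn => h2 w' (hts hw') hn⟩
    · have h3 : ∀ w' ∈ t, pb w' = true ∧ py w' = py w := fun w' hw' =>
        h2 w' (hts hw') fun hc => hwt (hc ▸ hw')
      refine Or.inl ⟨fun w' hw' => (h3 w' hw').1, ?_⟩
      have : t.image py = {py w} := by
        ext y
        rw [Finset.mem_image, Finset.mem_singleton]
        constructor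
        · rintro ⟨w', hw', rfl⟩
          exact (h3 w' hw').2
        · rintro rfl
          obtain ⟨w', hw'⟩ := htn
          exact ⟨w', hw', (h3 w' hw').2⟩
      rw [this]
      exact hK.sing _

theorem Dat.sing (d : Dat E F f px py pb ι) (hK : Stru n F K) (w : W) :
    {w} ∈ KW E px py pb K := by
  classical
  refine ⟨Finset.singleton_nonempty w, fun a ha b hb => ?_, ?_⟩
  · rw [Finset.mem_singleton.1 ha, Finset.mem_singleton.1 hb]
    exact d.hE.equiv.refl _
  · cases hb : pb w with
    | true =>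
      refine Or.inl ⟨fun a ha => by rw [Finset.mem_singleton.1 ha]; exact hb, ?_⟩
      rw [Finset.image_singleton]
      exact hK.sing _
    | false =>
      exact Or.inr ⟨w, Finset.mem_singleton_self w, hb, fun a ha hn =>
        absurd (Finset.mem_singleton.1 ha) hn⟩

theorem Dat.card (d : Dat E F f px py pb ι) (hn : 2 ≤ n) (hK : Stru n F K) {s : Finset W}
    (hs : s ∈ KW E px py pb K) : s.card ≤ n + 1 := by
  classical
  obtain ⟨hne, hE, ⟨h1, h2⟩ | ⟨w, hw, h1, h2⟩⟩ := hs
  · have h3 : Set.InjOn py (s : Set W) := fun a ha b hb hab =>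
      d.uni a b (h1 a ha) (h1 b hb) (hE a ha b hb) hab
    rw [← Finset.card_image_of_injOn h3]
    exact hK.card _ h2
  · have h3 : (s.erase w).card ≤ 1 := by
      rw [Finset.card_le_one]
      intro a ha b hb
      obtain ⟨ha1, ha2⟩ := Finset.mem_erase.1 ha
      obtain ⟨hb1, hb2⟩ := Finset.mem_erase.1 hb
      obtain ⟨e1, e2⟩ := h2 a ha2 ha1
      obtain ⟨e3, e4⟩ := h2 b hb2 hb1
      exact d.uni a b e1 e3 (hE a ha2 b hb2) (e2.trans e4.symm)
    have h4 := Finset.card_erase_of_mem hw
    omega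

open Classical in
theorem Dat.borel (d : Dat E F f px py pb ι) (hK : Stru n F K) (k : ℕ) :
    MeasurableSet {v : Fin (k + 1) → W | Function.Injective v ∧
      Finset.univ.image v ∈ KW E px py pb K} := by
  have e : {v : Fin (k + 1) → W | Function.Injective v ∧
      Finset.univ.image v ∈ KW E px py pb K} =
      {v : Fin (k + 1) → W | (∀ i j, E (px (v i)) (px (v j))) ∧ (∀ i, pb (v i) = true) ∧
        (fun i => py (v i)) ∈ {u : Fin (k + 1) → Y | Function.Injective u ∧
          Finset.univ.image u ∈ K}} ∪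
      {v : Fin (k + 1) → W | (∀ i j, i ≠ j → v i ≠ v j) ∧ (∀ i j, E (px (v i)) (px (v j))) ∧
        ∃ i, pb (v i) = false ∧ ∀ j, j ≠ i → pb (v j) = true ∧ py (v j) = py (v i)} := by
    ext v
    have hmem : ∀ i, v i ∈ Finset.univ.image v := fun i =>
      Finset.mem_image_of_mem _ (Finset.mem_univ i)
    have himg : (Finset.univ.image v).image py = Finset.univ.image fun i => py (v i) := by
      rw [Finset.image_image]
      rfl
    constructor
    · rintro ⟨hv, hne, hE, ⟨h1, h2⟩ | ⟨w, hw, h1, h2⟩⟩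
      · left
        refine ⟨fun i j => hE _ (hmem i) _ (hmem j), fun i => h1 _ (hmem i), ?_, ?_⟩
        · intro i j hij
          exact hv (d.uni _ _ (h1 _ (hmem i)) (h1 _ (hmem j)) (hE _ (hmem i) _ (hmem j)) hij)
        · rw [himg] at h2
          exact h2
      · right
        obtain ⟨i, _, rfl⟩ := Finset.mem_image.1 hw
        exact ⟨fun a b hab hc => hab (hv hc), fun a b => hE _ (hmem a) _ (hmem b), i, h1,
          fun j hj => h2 _ (hmem j) fun hc => hj (hv hc)⟩
    · rintro (⟨h1, h2, h3, h4⟩ | ⟨h1, h2, i, h3, h4⟩)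
      · have hv : Function.Injective v := fun i j hij => h3 (by
          show py (v i) = py (v j)
          rw [hij])
        refine ⟨hv, Finset.univ_nonempty.image _, ?_, Or.inl ⟨?_, ?_⟩⟩
        · intro a ha b hb
          obtain ⟨i, _, rfl⟩ := Finset.mem_image.1 ha
          obtain ⟨j, _, rfl⟩ := Finset.mem_image.1 hb
          exact h1 i j
        · intro a ha
          obtain ⟨i, _, rfl⟩ := Finset.mem_image.1 ha
          exact h2 i
        · rw [himg]
          exact h4
      · have hv : Function.Injective v := fun a b hab => by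
          by_contra hne
          exact h1 a b hne hab
        refine ⟨hv, Finset.univ_nonempty.image _, ?_, Or.inr ⟨v i, hmem i, h3, ?_⟩⟩
        · intro a ha b hb
          obtain ⟨i, _, rfl⟩ := Finset.mem_image.1 ha
          obtain ⟨j, _, rfl⟩ := Finset.mem_image.1 hb
          exact h2 i j
        · intro a ha hne
          obtain ⟨j, _, rfl⟩ := Finset.mem_image.1 ha
          exact h4 j fun hc => hne (by rw [hc])
  rw [e]
  have px' : ∀ i : Fin (k + 1), Measurable fun v : Fin (k + 1) → W => px (v i) := fun i =>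
    d.mx.comp (measurable_pi_apply i)
  have py' : ∀ i : Fin (k + 1), Measurable fun v : Fin (k + 1) → W => py (v i) := fun i =>
    d.my.comp (measurable_pi_apply i)
  have pb' : ∀ i : Fin (k + 1), Measurable fun v : Fin (k + 1) → W => pb (v i) := fun i =>
    d.mb.comp (measurable_pi_apply i)
  have mE : ∀ i j : Fin (k + 1), Measurable fun v : Fin (k + 1) → W => E (px (v i)) (px (v j)) :=
    fun i j => measurableSet_setOfPred.1 (((px' i).prodMk (px' j)) d.hE.borel)
  have mb1 : ∀ (i : Fin (k + 1)) (b : Bool), Measurable fun v : Fin (k + 1) → W => pb (v i) = b :=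
    fun i b => measurableSet_setOfPred.1 ((pb' i) (measurableSet_singleton b))
  have my1 : ∀ i j : Fin (k + 1), Measurable fun v : Fin (k + 1) → W => py (v i) = py (v j) :=
    fun i j => measurableSet_setOfPred.1 (measurableSet_eq_fun (py' i) (py' j))
  have mw1 : ∀ i j : Fin (k + 1), Measurable fun v : Fin (k + 1) → W => v i = v j :=
    fun i j => measurableSet_setOfPred.1 (measurableSet_eq_fun (measurable_pi_apply i)
      (measurable_pi_apply j))
  refine MeasurableSet.union ?_ ?_
  · refine measurableSet_setOfPred.2 ((Measurable.forall fun i => Measurable.forall fun j =>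
      mE i j).and ((Measurable.forall fun i => mb1 i true).and ?_))
    exact measurableSet_setOfPred.1 ((measurable_pi_lambda _ fun i => py' i) (hK.borel k))
  · refine measurableSet_setOfPred.2 ((Measurable.forall fun i => Measurable.forall fun j =>
      Measurable.imp measurable_const (mw1 i j).not).and ((Measurable.forall fun i =>
      Measurable.forall fun j => mE i j).and (Measurable.exists fun i => (mb1 i false).and
      (Measurable.forall fun j => Measurable.imp measurable_const ((mb1 j true).and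
        (my1 j i))))))

open Classical in
theorem Dat.lift (d : Dat E F f px py pb ι) (w0 : W) : ∃ g : Y → W,
    ∀ y, F (f (px w0)) y → E (px w0) (px (g y)) ∧ py (g y) = y ∧ pb (g y) = true := by
  have : ∀ y, ∃ w, F (f (px w0)) y → E (px w0) (px w) ∧ py w = y ∧ pb w = true := by
    intro y
    by_cases h : F (f (px w0)) y
    · obtain ⟨w, hw⟩ := d.ex _ _ h
      exact ⟨w, fun _ => hw⟩
    · exact ⟨w0, fun h' => absurd h' h⟩
  choose g hg using this
  exact ⟨g, hg⟩

open Classical in
theorem Dat.lmem (d : Dat E F f px py pb ι) (hK : Stru n F K) {w0 : W} {g : Y → W}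
    (hg : ∀ y, F (f (px w0)) y → E (px w0) (px (g y)) ∧ py (g y) = y ∧ pb (g y) = true)
    {t : Finset Y} (ht : t ∈ K) (ht' : ∀ y ∈ t, F (f (px w0)) y) :
    t.image g ∈ KW E px py pb K ∧ ∀ w ∈ t.image g, E (px w0) (px w) := by
  have h1 : ∀ w ∈ t.image g, E (px w0) (px w) := by
    intro w hw
    obtain ⟨y, hy, rfl⟩ := Finset.mem_image.1 hw
    exact (hg y (ht' y hy)).1
  refine ⟨⟨(hK.cx.nonempty ht).image _, fun a ha b hb =>
    d.hE.equiv.trans (d.hE.equiv.symm (h1 a ha)) (h1 b hb), Or.inl ⟨?_, ?_⟩⟩, h1⟩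
  · intro w hw
    obtain ⟨y, hy, rfl⟩ := Finset.mem_image.1 hw
    exact (hg y (ht' y hy)).2.2
  · have : (t.image g).image py = t := by
      ext y
      rw [Finset.mem_image]
      constructor
      · rintro ⟨w, hw, rfl⟩
        obtain ⟨y, hy, rfl⟩ := Finset.mem_image.1 hw
        rw [(hg y (ht' y hy)).2.1]
        exact hy
      · intro hy
        exact ⟨g y, Finset.mem_image_of_mem _ hy, (hg y (ht' y hy)).2.1⟩
    rw [this]
    exact ht

theorem Dat.ctr (d : Dat E F f px py pb ι) (hK : Stru n F K) (w0 : W) :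
    ContractibleSpace (Rlz {s | s ∈ KW E px py pb K ∧ ∀ w ∈ s, E (px w0) (px w)}) := by
  classical
  obtain ⟨g, hg⟩ := d.lift w0
  set M : Set (Finset W) := {s | s ∈ KW E px py pb K ∧ ∀ w ∈ s, E (px w0) (px w)} with hM
  set N : Set (Finset Y) := {t | t ∈ K ∧ ∀ y ∈ t, F (f (px w0)) y} with hN
  have cM : IsCx M := ⟨fun h => (d.cx hK).1 h.1, fun s hs t hts htn =>
    ⟨(d.cx hK).2 s hs.1 t hts htn, fun w hw => hs.2 w (hts hw)⟩⟩
  have cN : IsCx N := ⟨fun h => hK.cx.1 h.1, fun s hs t hts htn =>
    ⟨hK.cx.2 s hs.1 t hts htn, fun w hw => hs.2 w (hts hw)⟩⟩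
  have hFw : ∀ w, E (px w0) (px w) → F (f (px w0)) (py w) := fun w hw =>
    d.hF.equiv.trans (d.hom _ _ hw) (d.fy w)
  have hA : ∀ s ∈ M, s.image py ∈ N := by
    intro s hs
    refine ⟨d.img hK hs.1, fun y hy => ?_⟩
    obtain ⟨w, hw, rfl⟩ := Finset.mem_image.1 hy
    exact hFw w (hs.2 w hw)
  have hL : ∀ t ∈ N, t.image g ∈ M := fun t ht => d.lmem hK hg ht.1 ht.2
  have hgy : ∀ s ∈ M, ∀ w ∈ s, E (px w0) (px (g (py w))) ∧ py (g (py w)) = py w ∧
      pb (g (py w)) = true := fun s hs w hw => hg _ (hFw w (hs.2 w hw))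
  have hB : ∀ s ∈ M, s ∪ s.image (fun w => g (py w)) ∈ M := by
    intro s hs
    have h1 : ∀ w ∈ s ∪ s.image (fun w => g (py w)), E (px w0) (px w) := by
      intro w hw
      rcases Finset.mem_union.1 hw with hw | hw
      · exact hs.2 w hw
      · obtain ⟨w', hw', rfl⟩ := Finset.mem_image.1 hw
        exact (hgy s hs w' hw').1
    have hne : (s ∪ s.image (fun w => g (py w))).Nonempty :=
      hs.1.1.mono Finset.subset_union_left
    refine ⟨⟨hne, fun a ha b hb => d.hE.equiv.trans (d.hE.equiv.symm (h1 a ha)) (h1 b hb), ?_⟩,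
      h1⟩
    obtain ⟨h2, h3⟩ | ⟨w, hw, h2, h3⟩ := hs.1.2.2
    · refine Or.inl ⟨fun w hw => ?_, ?_⟩
      · rcases Finset.mem_union.1 hw with hw | hw
        · exact h2 w hw
        · obtain ⟨w', hw', rfl⟩ := Finset.mem_image.1 hw
          exact (hgy s hs w' hw').2.2
      · have : (s ∪ s.image (fun w => g (py w))).image py = s.image py := by
          rw [Finset.image_union, Finset.image_image]
          refine Finset.union_eq_left.2 fun y hy => ?_
          obtain ⟨w', hw', rfl⟩ := Finset.mem_image.1 hy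
          show py (g (py w')) ∈ _
          rw [(hgy s hs w' hw').2.1]
          exact Finset.mem_image_of_mem _ hw'
        rw [this]
        exact h3
    · refine Or.inr ⟨w, Finset.mem_union_left _ hw, h2, fun a ha hn => ?_⟩
      rcases Finset.mem_union.1 ha with ha | ha
      · exact h3 a ha hn
      · obtain ⟨w', hw', rfl⟩ := Finset.mem_image.1 ha
        refine ⟨(hgy s hs w' hw').2.2, ?_⟩
        rw [(hgy s hs w' hw').2.1]
        by_cases h : w' = w
        · rw [h]
        · exact (h3 w' hw' h).2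
  have hNC : Ctr N := ctr_iff.2 (hK.ctr (f (px w0)))
  have hΦ : IsCarrier M N fun s => Cl (s.image py) :=
    ⟨fun s _ => isCx_Cl _, fun s hs => Cl_sub cN (hA s hs),
      fun s _ t hts _ => Cl_mono (Finset.image_subset_image hts),
      fun s hs => ctr_Cl (hs.1.1.image _)⟩
  have hΨ : IsCarrier N M fun t => Cl (t.image g) :=
    ⟨fun s _ => isCx_Cl _, fun s hs => Cl_sub cM (hL s hs),
      fun s _ t hts _ => Cl_mono (Finset.image_subset_image hts),
      fun s hs => ctr_Cl ((cN.nonempty hs).image _)⟩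
  have hΘ : IsCarrier M M fun s => Cl (s ∪ s.image fun w => g (py w)) :=
    ⟨fun s _ => isCx_Cl _, fun s hs => Cl_sub cM (hB s hs),
      fun s _ t hts _ => Cl_mono (Finset.union_subset_union hts (Finset.image_subset_image hts)),
      fun s hs => ctr_Cl (hs.1.1.mono Finset.subset_union_left)⟩
  refine ctr_iff.1 (ctr_of_dominated cM cN hNC hΦ hΨ hΘ (fun s hs =>
    ⟨Finset.subset_union_left, hs.1.1⟩) fun s hs t ht => ?_)
  refine Cl_mono ((Finset.image_subset_image ht.1).trans ?_)
  rw [Finset.image_image]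
  exact Finset.subset_union_right

theorem Dat.stru (d : Dat E F f px py pb ι) (hn : 2 ≤ n) (hK : Stru n F K) :
    Stru n (fun w w' => E (px w) (px w')) (KW E px py pb K) :=
  ⟨d.cx hK, d.sing hK, fun _ hs => hs.2.1, fun _ hs => d.card hn hK hs, d.borel hK, d.ctr hK⟩

theorem Dat.main (d : Dat E F f px py pb ι) (hn : 2 ≤ n) (hK : Stru n F K) :
    ∃ L : Set (Finset X), Stru n E L ∧
      ∀ x, (∃ s ∈ K, s.card = n + 1 ∧ ∀ y ∈ s, F (f x) y) →
        (∃ t : Finset X, t.card = n + 1 ∧ ∀ y ∈ t, E x y) →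
        ∃ s ∈ L, s.card = n + 1 ∧ ∀ y ∈ s, E x y := by
  classical
  have hinj : Function.Injective ι := fun x x' h => by rw [← d.pi x, h, d.pi]
  obtain ⟨L, hL1, hL2⟩ := general_case d.hE d.cber ι d.mi hinj
    (fun x x' => by rw [d.pi, d.pi]) n hn _ (d.stru hn hK)
  refine ⟨L, hL1, fun x hx ht => hL2 x ?_ ht⟩
  obtain ⟨s, hs, hs1, hs2⟩ := hx
  obtain ⟨g, hg⟩ := d.lift (ι x)
  have hs2' : ∀ y ∈ s, F (f (px (ι x))) y := by
    rw [d.pi]
    exact hs2
  obtain ⟨h1, h2⟩ := d.lmem hK hg hs hs2'
  refine ⟨s.image g, h1, ?_, h2⟩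
  rw [Finset.card_image_of_injOn, hs1]
  intro a ha b hb hab
  rw [← (hg a (hs2' a ha)).2.1, hab, (hg b (hs2' b hb)).2.1]

end abs

end Pool.Agent.Y560.WB
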